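import Mathlib

/-!
# The kernel `q ^ |S ∆ S'|` on finite sets
-/

open Finset

namespace Pool.Agent.Q151.Mag

variable {ι : Type*} [Fintype ι] [DecidableEq ι]

/-- signs -/
def sg (S : Finset ι) (i : ι) : ℝ := if i ∈ S then -1 else 1

/-- characters -/
def chi (R S : Finset ι) : ℝ := ∏ i ∈ R, sg S i

lemma sg_mul (S S' : Finset ι) (i : ι) :
    sg S i * sg S' i = if i ∈ symmDiff S S' then -1 else 1 := by
  unfold sg
  by_cases h1 : i ∈ S <;> by_cases h2 : i ∈ S' <;> simp [h1, h2, Finset.mem_symmDiff]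

lemma kern_expand (q : ℝ) (S S' : Finset ι) :
    q ^ (symmDiff S S').card = ∑ R : Finset ι, (((1 - q) / 2) ^ R.card *
      ((1 + q) / 2) ^ (univ \ R).card) * (chi R S * chi R S') := by
  have h1 : q ^ (symmDiff S S').card =
      ∏ i : ι, ((1 - q) / 2 * (sg S i * sg S' i) + (1 + q) / 2) := by
    have h2 : ∀ i : ι, (1 - q) / 2 * (sg S i * sg S' i) + (1 + q) / 2 =
        if i ∈ symmDiff S S' then q else 1 := by
      intro i
      rw [sg_mul]
      split_ifs <;> ring
    rw [prod_congr rfl fun i _ => h2 i, prod_ite]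
    simp
  rw [h1, prod_add, powerset_univ]
  refine sum_congr rfl fun R _ => ?_
  rw [prod_mul_distrib, prod_mul_distrib, prod_const, prod_const]
  unfold chi
  ring

lemma chi_orth (S S' : Finset ι) :
    ∑ R : Finset ι, chi R S * chi R S' = if S = S' then (2 : ℝ) ^ (Fintype.card ι) else 0 := by
  have h1 : ∑ R : Finset ι, chi R S * chi R S' = ∏ i : ι, (sg S i * sg S' i + 1) := by
    rw [prod_add, powerset_univ]
    refine sum_congr rfl fun R _ => ?_
    rw [prod_mul_distrib, prod_const_one, mul_one]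
    rfl
  rw [h1]
  split_ifs with h
  · subst h
    have : ∀ i : ι, sg S i * sg S i + 1 = 2 := by
      intro i; unfold sg; split_ifs <;> norm_num
    rw [prod_congr rfl fun i _ => this i, prod_const, card_univ]
  · have h2 : ∃ i, i ∈ symmDiff S S' := by
      by_contra hc
      push Not at hc
      apply h
      ext i
      have := hc i
      rw [Finset.mem_symmDiff] at this
      tauto
    obtain ⟨i, hi⟩ := h2
    apply prod_eq_zero (mem_univ i)
    rw [sg_mul, if_pos hi]
    norm_num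

section

variable {J : Type*} [Fintype J] (φ : J → Finset ι) (c : J → ℝ)

lemma quad_expand (q : ℝ) :
    ∑ a, ∑ b, c a * c b * q ^ (symmDiff (φ a) (φ b)).card =
    ∑ R : Finset ι, (((1 - q) / 2) ^ R.card * ((1 + q) / 2) ^ (univ \ R).card) *
      (∑ a, c a * chi R (φ a)) ^ 2 := by
  have h1 : ∀ a b, c a * c b * q ^ (symmDiff (φ a) (φ b)).card =
      ∑ R : Finset ι, (((1 - q) / 2) ^ R.card * ((1 + q) / 2) ^ (univ \ R).card) *
        ((c a * chi R (φ a)) * (c b * chi R (φ b))) := by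
    intro a b
    rw [kern_expand, mul_sum]
    exact sum_congr rfl fun R _ => by ring
  simp only [h1]
  rw [sum_congr rfl fun a _ => sum_comm, sum_comm]
  refine sum_congr rfl fun R _ => ?_
  rw [sq, sum_mul_sum, mul_sum]
  refine sum_congr rfl fun a _ => ?_
  rw [mul_sum]

lemma quad_lower {q : ℝ} (h0 : 0 ≤ q) (h1 : q ≤ 1) :
    ((1 + q) / 2) ^ (Fintype.card ι) * (∑ a, c a) ^ 2 ≤
      ∑ a, ∑ b, c a * c b * q ^ (symmDiff (φ a) (φ b)).card := by
  rw [quad_expand]
  have h2 : ((1 + q) / 2) ^ (Fintype.card ι) * (∑ a, c a) ^ 2 =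
      (((1 - q) / 2) ^ (∅ : Finset ι).card * ((1 + q) / 2) ^ (univ \ (∅ : Finset ι)).card) *
      (∑ a, c a * chi ∅ (φ a)) ^ 2 := by
    simp [chi]
  rw [h2]
  refine single_le_sum (f := fun R : Finset ι =>
    (((1 - q) / 2) ^ R.card * ((1 + q) / 2) ^ (univ \ R).card) *
      (∑ a, c a * chi R (φ a)) ^ 2) (fun R _ => ?_) (mem_univ ∅)
  have h3 : 0 ≤ (1 - q) / 2 := by linarith
  have h4 : 0 ≤ (1 + q) / 2 := by linarith
  positivity

lemma quad_pos {q : ℝ} (h0 : 0 ≤ q) (h1 : q < 1) (hφ : Function.Injective φ) (hc : c ≠ 0) :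
    0 < ∑ a, ∑ b, c a * c b * q ^ (symmDiff (φ a) (φ b)).card := by
  classical
  rw [quad_expand]
  have h3 : 0 < (1 - q) / 2 := by linarith
  have h4 : 0 < (1 + q) / 2 := by linarith
  have hnn : ∀ R ∈ (univ : Finset (Finset ι)), 0 ≤
      (((1 - q) / 2) ^ R.card * ((1 + q) / 2) ^ (univ \ R).card) *
      (∑ a, c a * chi R (φ a)) ^ 2 := fun R _ => by positivity
  refine lt_of_le_of_ne (sum_nonneg hnn) ?_
  intro h
  have h5 := (sum_eq_zero_iff_of_nonneg hnn).mp h.symm
  have h6 : ∀ R : Finset ι, (∑ a, c a * chi R (φ a)) = 0 := by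
    intro R
    have := h5 R (mem_univ R)
    rcases mul_eq_zero.mp this with h | h
    · exact absurd h (by positivity)
    · exact pow_eq_zero_iff (two_ne_zero) |>.mp h
  have h7 : ∑ R : Finset ι, (∑ a, c a * chi R (φ a)) ^ 2 =
      2 ^ (Fintype.card ι) * ∑ a, c a ^ 2 := by
    have h8 : ∀ R : Finset ι, (∑ a, c a * chi R (φ a)) ^ 2 =
        ∑ a, ∑ b, (c a * c b) * (chi R (φ a) * chi R (φ b)) := by
      intro R
      rw [sq, sum_mul_sum]
      exact sum_congr rfl fun a _ => sum_congr rfl fun b _ => by ring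
    simp only [h8]
    rw [sum_comm, mul_sum]
    refine sum_congr rfl fun a _ => ?_
    rw [sum_comm]
    have h9 : ∀ b, ∑ R : Finset ι, (c a * c b) * (chi R (φ a) * chi R (φ b)) =
        if a = b then 2 ^ (Fintype.card ι) * c a ^ 2 else 0 := by
      intro b
      rw [← mul_sum, chi_orth]
      by_cases hab : a = b
      · subst hab; simp; ring
      · rw [if_neg hab, if_neg (fun h => hab (hφ h)), mul_zero]
    rw [sum_congr rfl fun b _ => h9 b]
    simp
  simp only [h6] at h7
  have h10 : ∑ a, c a ^ 2 = 0 := by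
    have : (0 : ℝ) = 2 ^ (Fintype.card ι) * ∑ a, c a ^ 2 := by simpa using h7
    rcases mul_eq_zero.mp this.symm with h | h
    · exact absurd h (by positivity)
    · exact h
  apply hc
  funext a
  have := (sum_eq_zero_iff_of_nonneg (fun a _ => sq_nonneg (c a))).mp h10 a (mem_univ a)
  exact pow_eq_zero_iff (two_ne_zero) |>.mp this

end

end Pool.Agent.Q151.Mag
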