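import Mathlib
import Pool.Agent.Q151.Mag.Kernel

/-!
# Indicators of dyadic intervals in `L₁[0,1]`
-/

open MeasureTheory Set

namespace Pool.Agent.Q151.Mag

/-- Lebesgue measure on `[0,1]` -/
noncomputable abbrev μI : Measure ℝ := volume.restrict (Icc (0:ℝ) 1)

/-- `L₁([0,1], ℝ)` -/
abbrev L1 : Type := Lp ℝ 1 μI

/-- the union of the `N`-adic cells with index in `S` -/
def G {N : ℕ} (S : Finset (Fin N)) : Set ℝ := {x | x ∈ Ico (0:ℝ) 1 ∧ ∃ i ∈ S, ⌊(N:ℝ) * x⌋₊ = (i : ℕ)}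

/-- dyadic cell -/
def E (m k : ℕ) : Set ℝ := {x | x ∈ Ico (0:ℝ) 1 ∧ ⌊((2 ^ m : ℕ) : ℝ) * x⌋₊ = k}

lemma cell_eq {N : ℕ} (i : Fin N) :
    {x : ℝ | x ∈ Ico (0:ℝ) 1 ∧ ⌊(N:ℝ) * x⌋₊ = (i : ℕ)} = Ico ((i:ℕ) / (N:ℝ)) (((i:ℕ) + 1) / (N:ℝ)) := by
  have hN : 0 < N := i.pos
  have hN' : (0:ℝ) < N := by exact_mod_cast hN
  ext x
  simp only [mem_ofPred_eq, mem_Ico]
  constructor
  · rintro ⟨⟨h0, h1⟩, h2⟩
    rw [Nat.floor_eq_iff (by positivity)] at h2
    constructor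
    · rw [div_le_iff₀ hN']; linarith [h2.1]
    · rw [lt_div_iff₀ hN']; linarith [h2.2]
  · rintro ⟨h1, h2⟩
    rw [div_le_iff₀ hN'] at h1
    rw [lt_div_iff₀ hN'] at h2
    have hi : ((i:ℕ):ℝ) + 1 ≤ N := by exact_mod_cast i.2
    have h3 : 0 ≤ x := by
      by_contra hc
      push Not at hc
      have : x * N < 0 := mul_neg_of_neg_of_pos hc hN'
      have h4 : (0:ℝ) ≤ (i:ℕ) := by positivity
      linarith
    refine ⟨⟨h3, ?_⟩, ?_⟩
    · by_contra hc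
      push Not at hc
      have : (N:ℝ) ≤ x * N := by nlinarith
      linarith
    · rw [Nat.floor_eq_iff (by positivity)]
      constructor <;> linarith

lemma G_eq {N : ℕ} (S : Finset (Fin N)) :
    G S = ⋃ i ∈ S, Ico (((i:ℕ):ℝ) / (N:ℝ)) ((((i:ℕ):ℝ) + 1) / (N:ℝ)) := by
  ext x
  simp only [← cell_eq, G, mem_ofPred_eq, mem_iUnion, exists_prop]
  constructor
  · rintro ⟨h, i, hi, h2⟩; exact ⟨i, hi, h, h2⟩
  · rintro ⟨i, hi, h, h2⟩; exact ⟨h, i, hi, h2⟩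

lemma measurable_G {N : ℕ} (S : Finset (Fin N)) : MeasurableSet (G S) := by
  rw [G_eq]
  exact Finset.measurableSet_biUnion _ fun i _ => measurableSet_Ico

lemma G_subset {N : ℕ} (S : Finset (Fin N)) : G S ⊆ Icc (0:ℝ) 1 := fun _ hx => ⟨hx.1.1, hx.1.2.le⟩

lemma volume_G {N : ℕ} (S : Finset (Fin N)) : (μI (G S)).toReal = S.card / N := by
  rw [Measure.restrict_apply (measurable_G S), inter_eq_left.mpr (G_subset S), G_eq,
    measure_biUnion_finset]
  · rw [ENNReal.toReal_sum]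
    · have : ∀ i ∈ S, (volume (Ico (((i:ℕ):ℝ) / (N:ℝ)) ((((i:ℕ):ℝ) + 1) / (N:ℝ)))).toReal = 1 / N := by
        intro i _
        rw [Real.volume_Ico, ENNReal.toReal_ofReal]
        · ring
        · rw [← sub_div]; simp
      rw [Finset.sum_congr rfl this, Finset.sum_const, nsmul_eq_mul]
      ring
    · intro i _
      rw [Real.volume_Ico]
      exact ENNReal.ofReal_ne_top
  · intro i _ j _ hij
    rw [Function.onFun, ← cell_eq, ← cell_eq, Set.disjoint_left]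
    rintro x ⟨_, h1⟩ ⟨_, h2⟩
    exact hij (Fin.ext (h1.symm.trans h2))
  · intro i _; exact measurableSet_Ico

lemma G_symmDiff {N : ℕ} (S S' : Finset (Fin N)) :
    symmDiff (G S) (G S') = G (symmDiff S S') := by
  ext x
  simp only [Set.mem_symmDiff, G, mem_ofPred_eq, Finset.mem_symmDiff]
  constructor
  · rintro (⟨⟨h1, i, hi, h2⟩, h3⟩ | ⟨⟨h1, i, hi, h2⟩, h3⟩)
    · exact ⟨h1, i, Or.inl ⟨hi, fun h => h3 ⟨h1, i, h, h2⟩⟩, h2⟩
    · exact ⟨h1, i, Or.inr ⟨hi, fun h => h3 ⟨h1, i, h, h2⟩⟩, h2⟩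
  · rintro ⟨h1, i, (⟨hi, hi'⟩ | ⟨hi, hi'⟩), h2⟩
    · refine Or.inl ⟨⟨h1, i, hi, h2⟩, ?_⟩
      rintro ⟨_, j, hj, h3⟩
      have : i = j := Fin.ext (h2.symm.trans h3)
      exact hi' (this ▸ hj)
    · refine Or.inr ⟨⟨h1, i, hi, h2⟩, ?_⟩
      rintro ⟨_, j, hj, h3⟩
      have : i = j := Fin.ext (h2.symm.trans h3)
      exact hi' (this ▸ hj)

/-- indices of the cells of level `M` in the cell `(m, k)` -/
def phi (M m k : ℕ) : Finset (Fin (2 ^ M)) := Finset.univ.filter fun i => (i : ℕ) / 2 ^ (M - m) = k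

lemma E_eq_G {M m k : ℕ} (h : m ≤ M) : E m k = G (phi M m k) := by
  ext x
  simp only [E, G, phi, mem_ofPred_eq, Finset.mem_filter, Finset.mem_univ, true_and]
  refine and_congr_right fun hx => ?_
  have h1 : ⌊((2 ^ m : ℕ) : ℝ) * x⌋₊ = ⌊((2 ^ M : ℕ) : ℝ) * x⌋₊ / 2 ^ (M - m) := by
    rw [← Nat.floor_div_natCast]
    congr 1
    have : ((2 ^ M : ℕ) : ℝ) = ((2 ^ m : ℕ) : ℝ) * ((2 ^ (M - m) : ℕ) : ℝ) := by
      rw [← Nat.cast_mul, ← pow_add, Nat.add_sub_cancel' h]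
    rw [this]
    have h3 : ((2 ^ (M - m) : ℕ) : ℝ) ≠ 0 := by positivity
    field_simp
  have h2 : ⌊((2 ^ M : ℕ) : ℝ) * x⌋₊ < 2 ^ M := by
    rw [Nat.floor_lt (by have := hx.1; positivity)]
    have : (0:ℝ) < ((2 ^ M : ℕ) : ℝ) := by positivity
    nlinarith [hx.2]
  constructor
  · intro h3
    exact ⟨⟨_, h2⟩, by rw [← h3, h1], rfl⟩
  · rintro ⟨i, hi, h3⟩
    rw [h1, h3, hi]

lemma measurable_E (m k : ℕ) : MeasurableSet (E m k) := by
  rw [E_eq_G le_rfl]; exact measurable_G _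

lemma muI_ne_top (s : Set ℝ) : μI s ≠ ⊤ := measure_ne_top _ _

/-- the indicator of the dyadic cell -/
noncomputable def u (m k : ℕ) : L1 := indicatorConstLp 1 (measurable_E m k) (muI_ne_top _) (1:ℝ)

lemma indicator_congr' {s t : Set ℝ} (hs : MeasurableSet s) (ht : MeasurableSet t) (h : s = t) :
    indicatorConstLp 1 hs (muI_ne_top s) (1:ℝ) = indicatorConstLp 1 ht (muI_ne_top t) (1:ℝ) := by
  subst h; rfl

/-- the indicator of a union of cells -/
noncomputable def v {N : ℕ} (S : Finset (Fin N)) : L1 :=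
  indicatorConstLp 1 (measurable_G S) (muI_ne_top _) (1:ℝ)

lemma u_eq_v {M m k : ℕ} (h : m ≤ M) : u m k = v (phi M m k) :=
  indicator_congr' _ _ (E_eq_G h)

lemma dist_v {N : ℕ} (S S' : Finset (Fin N)) : dist (v S) (v S') = (symmDiff S S').card / N := by
  unfold v
  rw [MeasureTheory.dist_indicatorConstLp_eq_norm, indicator_congr' _ (measurable_G (symmDiff S S')) (G_symmDiff S S'),
    norm_indicatorConstLp one_ne_zero ENNReal.one_ne_top, Measure.real, volume_G]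
  simp

lemma v_empty {N : ℕ} : v (∅ : Finset (Fin N)) = 0 := by
  unfold v
  rw [indicator_congr' _ MeasurableSet.empty (by ext x; simp [G]), indicatorConstLp_empty]

lemma v_injective {N : ℕ} (hN : 0 < N) : Function.Injective (v (N := N)) := by
  intro S S' h
  have h1 := dist_v S S'
  rw [h, dist_self] at h1
  have h2 : ((symmDiff S S').card : ℝ) = 0 := by
    have hN' : (N : ℝ) ≠ 0 := by positivity
    field_simp at h1
    linarith
  have h3 : symmDiff S S' = ∅ := by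
    rw [← Finset.card_eq_zero]; exact_mod_cast h2
  exact symmDiff_eq_bot.mp h3

lemma exp_dist_v {N : ℕ} (S S' : Finset (Fin N)) :
    Real.exp (-dist (v S) (v S')) = Real.exp (-(1 / N : ℝ)) ^ (symmDiff S S').card := by
  rw [dist_v, ← Real.exp_nat_mul]
  congr 1
  ring

end Pool.Agent.Q151.Mag
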